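import Pool.Agent.J6H2.CL.Dens

/-!
# Good primes for conjugations given by polynomials
-/

set_option autoImplicit false

namespace Pool.Agent.J6H2.CL

open NumberField Pool.Agent.W401.Cheb Polynomial Filter Topology

/-- **Good primes**, with the embedding. -/
theorem good_emb (F : ℚ[X]) (hF0 : F ≠ 0) :
    ∃ (L : Type) (_ : Field L) (_ : NumberField L) (_ : IsGalois ℚ L) (c : Gal(L/ℚ))
      (i : L →+* ℂ), (F.map (algebraMap ℚ L)).Splits ∧ (∀ x, i (c x) = starRingEnd ℂ (i x)) ∧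
      ∀ (l : ℕ) [Fact l.Prime], TorAt L l → xp L c l ≠ 0 →
        ∃ (τ : AlgebraicClosure ℚ_[l] ≃ₐ[ℚ_[l]] AlgebraicClosure ℚ_[l])
          (e : L →+* AlgebraicClosure ℚ_[l]), ∀ x, τ (e x) = e (c x) := by
  classical
  obtain ⟨L, iF, hN, hS⟩ := exists_splitting_rat F
  have hnorm : Normal ℚ L := Normal.of_isSplittingField F
  have hG : IsGalois ℚ L := {}
  obtain ⟨i⟩ : Nonempty (L →+* ℂ) := ⟨(IsAlgClosed.lift (R := ℚ)).toRingHom⟩
  obtain ⟨c, hc⟩ := exists_conj i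
  refine ⟨L, inferInstance, hN, hG, c, i, IsSplittingField.splits L F, hc, fun l hl hT hx => ?_⟩
  -- the local field
  set Fl : ℚ_[l][X] := F.map (algebraMap ℚ ℚ_[l]) with hFl
  obtain ⟨M, iM, iAM, hSM⟩ := exists_splitting Fl
  let : Algebra ℤ_[l] M := ((algebraMap ℚ_[l] M).comp (algebraMap ℤ_[l] ℚ_[l])).toAlgebra
  have : IsScalarTower ℤ_[l] ℚ_[l] M := IsScalarTower.of_algebraMap_eq' rfl
  have hcz : CharZero M := charZero_of_injective_algebraMap (algebraMap ℚ_[l] M).injective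
  have hfM : FiniteDimensional ℚ_[l] M := IsSplittingField.finiteDimensional M Fl
  have hnM : Normal ℚ_[l] M := Normal.of_isSplittingField Fl
  have hGM : IsGalois ℚ_[l] M := {}
  have hsp : (F.map (algebraMap ℚ M)).Splits := by
    have h1 : (Fl.map (algebraMap ℚ_[l] M)).Splits := IsSplittingField.splits M Fl
    rw [hFl, Polynomial.map_map] at h1
    rwa [Subsingleton.elim (algebraMap ℚ M) ((algebraMap ℚ_[l] M).comp (algebraMap ℚ ℚ_[l]))]
  set ι : L →+* M := (IsSplittingField.lift L F hsp).toRingHom with hι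
  obtain ⟨φ, hφ⟩ : ∃ φ : 𝓞 L →+* AlgebraicClosure (ZMod l), HasFrob l φ c := by
    by_contra hno
    push Not at hno
    apply hx
    unfold xp
    rw [dif_pos hl.out]
    have : IsEmpty {φ : 𝓞 L →+* AlgebraicClosure (ZMod l) // HasFrob l φ c} :=
      ⟨fun x => hno x.1 x.2⟩
    exact Nat.card_of_isEmpty
  obtain ⟨τ, σ, hτ⟩ := exists_local ι hT hφ
  let e : M →ₐ[ℚ_[l]] AlgebraicClosure ℚ_[l] := IsAlgClosed.lift
  let : Algebra M (AlgebraicClosure ℚ_[l]) := e.toRingHom.toAlgebra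
  have : IsScalarTower ℚ_[l] M (AlgebraicClosure ℚ_[l]) := IsScalarTower.of_algebraMap_eq'
    e.comp_algebraMap.symm
  refine ⟨τ.liftNormal (AlgebraicClosure ℚ_[l]), (e.toRingHom.comp ι).comp
    (σ : L ≃+* L).toRingHom, fun x => ?_⟩
  have h1 : (τ.liftNormal (AlgebraicClosure ℚ_[l])) (e (ι (σ x))) = e (τ (ι (σ x))) :=
    AlgEquiv.liftNormal_commutes τ (AlgebraicClosure ℚ_[l]) (ι (σ x))
  change (τ.liftNormal (AlgebraicClosure ℚ_[l])) (e (ι (σ x))) = e (ι (σ (c x)))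
  rw [h1, hτ, AlgEquiv.mul_apply, AlgEquiv.mul_apply, ← AlgEquiv.mul_apply σ⁻¹ σ x,
    inv_mul_cancel, AlgEquiv.one_apply]

/-- All roots come from the number field. -/
lemma exists_root {L : Type*} [Field L] [CharZero L] {Ω : Type*} [Field Ω] [CharZero Ω]
    (e : L →+* Ω) {f : ℚ[X]} (hf : f ≠ 0) (hs : (f.map (algebraMap ℚ L)).Splits) {α : Ω}
    (hα : aeval α f = 0) : ∃ a : L, aeval a f = 0 ∧ e a = α := by
  have h1 := hs.roots_map e
  have h2 : α ∈ ((f.map (algebraMap ℚ L)).map e).roots := by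
    rw [Polynomial.map_map, Polynomial.mem_roots (Polynomial.map_ne_zero hf),
      Polynomial.IsRoot.def, Polynomial.eval_map, Subsingleton.elim
        (e.comp (algebraMap ℚ L)) (algebraMap ℚ Ω)]
    exact hα
  rw [h1, Multiset.mem_map] at h2
  obtain ⟨a, ha, hae⟩ := h2
  refine ⟨a, ?_, hae⟩
  have h3 := Polynomial.isRoot_of_mem_roots ha
  rwa [Polynomial.IsRoot.def, Polynomial.eval_map] at h3

lemma hom_aeval {L : Type*} [Field L] [CharZero L] {Ω : Type*} [Field Ω] [CharZero Ω]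
    (e : L →+* Ω) (f : ℚ[X]) (a : L) : e (aeval a f) = aeval (e a) f := by
  rw [Polynomial.aeval_def, Polynomial.aeval_def, Polynomial.hom_eval₂,
    Subsingleton.elim (e.comp (algebraMap ℚ L)) (algebraMap ℚ Ω)]

/-- **The density of the good primes**, for conjugations given by polynomials. -/
theorem good_density' {J : Type*} [Finite J] (f r : J → ℚ[X]) (hf : ∀ j, f j ≠ 0)
    (hr : ∀ j, ∀ z : ℂ, aeval z (f j) = 0 → aeval z (r j) = starRingEnd ℂ z) :
    ∃ (S : Set ℕ) (δ : ℝ), 0 < δ ∧ HasPrimeDensity S δ ∧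
      ∀ (l : ℕ) [Fact l.Prime], l ∈ S →
        ∃ τ : AlgebraicClosure ℚ_[l] ≃ₐ[ℚ_[l]] AlgebraicClosure ℚ_[l], ∀ j,
          ∀ α : AlgebraicClosure ℚ_[l], aeval α (f j) = 0 → τ α = aeval α (r j) := by
  classical
  cases nonempty_fintype J
  have hF0 : ∏ j, f j ≠ 0 := Finset.prod_ne_zero_iff.2 fun j _ => hf j
  obtain ⟨L, iF, hN, hG, c, i, hspl, hc, hmain⟩ := good_emb (∏ j, f j) hF0
  obtain ⟨D, hD, hDT⟩ := torsor L
  set C : ℕ := Nat.card {σ : Gal(L/ℚ) // σ⁻¹ * c * σ = c} with hC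
  have hC0 : 0 < C := by
    have : Nonempty {σ : Gal(L/ℚ) // σ⁻¹ * c * σ = c} := ⟨1, by simp⟩
    exact Nat.card_pos
  set S : Set ℕ := {l | ∃ h : l.Prime, (haveI : Fact l.Prime := ⟨h⟩; TorAt L l) ∧ xp L c l ≠ 0}
    with hS
  refine ⟨S, (C : ℝ)⁻¹, by positivity, ⟨fun l hl => hl.1, ?_⟩, ?_⟩
  · have h1 : Tendsto (M fun l => (C : ℝ)⁻¹ * (xp L c l : ℝ)) atTop (𝓝 ((C : ℝ)⁻¹)) := by
      have h2 := (chebotarev L c).const_mul ((C : ℝ)⁻¹)
      rw [mul_one] at h2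
      refine h2.congr fun N => ?_
      rw [M_smul]
      rfl
    have h3 : Tendsto (M fun l => if l ∈ S then (1 : ℝ) else 0) atTop (𝓝 ((C : ℝ)⁻¹)) := by
      refine M_congr hD (fun l hl hlD => ?_) h1
      have : Fact l.Prime := ⟨hl⟩
      have hT := hDT l hlD
      by_cases hx : xp L c l = 0
      · rw [if_neg (fun h => h.2.2 hx), hx]
        simp
      · rw [if_pos ⟨hl, hT, hx⟩, xp_const c hT hx, ← hC]
        rw [inv_mul_cancel₀]
        exact_mod_cast hC0.ne'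
    refine h3.congr fun N => ?_
    unfold M
    congr 1
    rw [Finset.sum_ite, Finset.sum_const_zero, add_zero, Finset.sum_const, nsmul_eq_mul, mul_one]
    congr 1
    rw [← Set.ncard_coe_finset]
    congr 1
    ext l
    simp only [Finset.coe_filter, mem_pr, Set.mem_setOf_eq, Set.mem_inter_iff, Set.mem_Iic]
    exact ⟨fun h => ⟨h.2, h.1.1⟩, fun h => ⟨⟨h.2, h.1.1⟩, h.1⟩⟩
  · intro l hl hlS
    obtain ⟨τ, e, hτ⟩ := hmain l hlS.2.1 hlS.2.2
    refine ⟨τ, fun j α hα => ?_⟩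
    have hsj : ((f j).map (algebraMap ℚ L)).Splits :=
      hspl.of_dvd (Polynomial.map_ne_zero hF0)
        (Polynomial.map_dvd _ (Finset.dvd_prod_of_mem f (Finset.mem_univ j)))
    obtain ⟨a, ha, rfl⟩ := exists_root e (hf j) hsj hα
    rw [hτ, ← hom_aeval]
    congr 1
    apply i.injective
    rw [hc, hom_aeval, hr j]
    rw [← hom_aeval, ha, map_zero]

end Pool.Agent.J6H2.CL
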