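import Pool.Agent.J6H2.CL.DensDefs
import Pool.Agent.R908.AbAnisoDefs
import Pool.Agent.H914R2.PDefs

/-!
# Clozel's theorem over finitely generated fields: definitions
-/

set_option autoImplicit false

open CategoryTheory AlgebraicGeometry Polynomial Filter Topology

universe u v

namespace Pool.Agent.J6H2.CL

open Pool.Agent.H914 Pool.Agent.H914.VarClass Pool.Agent.H914.VarClass.Obj
  Pool.Agent.H914.WeilCohomology Pool.Agent.R908

/-- The polynomial `χ` with rational coefficients is not zero, and all its complex roots have the
square `w` of the absolute value. -/
structure IsPure (χ : ℚ[X]) (w : ℚ) : Prop where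
  ne_zero : χ ≠ 0
  norm : ∀ z : ℂ, aeval z χ = 0 → ‖z‖ ^ 2 = w

/-- The operator `F` on the subspace `U` has the following properties: it preserves `U`, the
characteristic polynomial of its restriction to `U` is squarefree, and the restriction is
annihilated by the polynomial `χ` with rational coefficients. -/
structure IsSimpleOn {K : Type*} [Field K] [CharZero K] {V : Type*} [AddCommGroup V] [Module K V]
    [Module.Finite K V] (F : Module.End K V) (U : Submodule K V) (χ : ℚ[X]) : Prop where
  squarefree : SquarefreeOn F U
  kills : ∀ x ∈ U, aeval F (χ.map (algebraMap ℚ K)) x = 0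

variable {k : Type u} [Field k] {𝒱 : VarClass k} {ops : CycleOps 𝒱}

/-- A variety `X` with a cycle `D` (in the intended use: an ample divisor), a natural number `q`
and polynomials `χ i` with rational coefficients (in the intended use: `q` is the number of elements
of the residue field of a place of good reduction of a model of `X` over a finitely generated field,
and `χ i` is the characteristic polynomial of the Frobenius element on `H^i(X)`, or on its
transcendental part). -/
structure FrobVar (𝒱 : VarClass k) where
  /-- the variety -/
  X : 𝒱.Obj
  /-- the divisor -/
  D : X.Cycles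
  /-- the number of elements of the residue field -/
  q : ℕ
  /-- the polynomials -/
  χ : ℕ → ℚ[X]

/-- The number `q` is positive, and the polynomials `χ i` are pure of weight `i`. -/
structure FrobVar.IsPure (P : FrobVar 𝒱) : Prop where
  pos : 0 < P.q
  pure : ∀ i, CL.IsPure (P.χ i) ((P.q : ℚ) ^ i)

/-- Hard Lefschetz and the Lefschetz standard conjecture hold for `X` and the divisor `D`, and
numerical and homological equivalence coincide on `X`. (These are theorems for surfaces.) -/
structure FrobVar.IsStandard (W : WeilCohomology.{u, v} ops) (P : FrobVar 𝒱) : Prop where
  div : P.X.IsCyc 1 P.D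
  hardLefschetz : HardLefschetz W P.X P.D
  lefschetzB : LefschetzB W P.X P.D
  homEqNum : HomEqNum W P.X

/-- The transcendental part of `H^i(X)`: the classes of degree `i` which are orthogonal to all
algebraic classes. -/
noncomputable def transPart (W : WeilCohomology.{u, v} ops) (X : 𝒱.Obj) (i : ℕ) :
    Submodule W.K (W.H X) :=
  transcendental W X ⊓ W.gr X i

/-- There is a symmetry of the theory `W` (in the intended use: a Frobenius element of the Galois
group) which multiplies the class of the divisor `D` by `q`, and which is annihilated by `χ i` and has
a squarefree characteristic polynomial on the transcendental part of `H^i(X)`, for all `i`. -/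
def FrobVar.HasSimpleFrobenius (W : WeilCohomology.{u, v} ops) (P : FrobVar 𝒱) : Prop :=
  ∃ S : Symmetry W, S.σ P.X (W.cl P.X P.D) = (P.q : W.K) • W.cl P.X P.D ∧
    ∀ i, IsSimpleOn (S.σ P.X).toLinearMap (transPart W P.X i) (P.χ i)

end Pool.Agent.J6H2.CL
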