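import Pool.Agent.J6H2.CL.Gal
import Pool.Agent.J6H2.CL.Defs
import Pool.Agent.W401.Cheb.Main

/-!
# The density of the good primes
-/

set_option autoImplicit false

namespace Pool.Agent.J6H2.CL

open NumberField Pool.Agent.W401.Cheb Polynomial Filter Topology

lemma xp_const {L : Type} [Field L] [NumberField L] [IsGalois ℚ L] (c : Gal(L/ℚ)) {l : ℕ}
    [hl : Fact l.Prime] (hT : TorAt L l) (hx : xp L c l ≠ 0) :
    xp L c l = Nat.card {σ : Gal(L/ℚ) // σ⁻¹ * c * σ = c} := by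
  obtain ⟨φ, hφ⟩ : ∃ φ : 𝓞 L →+* AlgebraicClosure (ZMod l), HasFrob l φ c := by
    by_contra hno
    push Not at hno
    apply hx
    unfold xp
    rw [dif_pos hl.out]
    have : IsEmpty {φ : 𝓞 L →+* AlgebraicClosure (ZMod l) // HasFrob l φ c} :=
      ⟨fun x => hno x.1 x.2⟩
    exact Nat.card_of_isEmpty
  exact xp_eq hT hφ c

/-- **The density of the good primes.** -/
theorem good_density {J : Type*} [Finite J] (f : J → ℚ[X]) (w : J → ℚ) (hf : ∀ j, f j ≠ 0)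
    (hw : ∀ j, ∀ z : ℂ, aeval z (f j) = 0 → ‖z‖ ^ 2 = w j) :
    ∃ (S : Set ℕ) (δ : ℝ), 0 < δ ∧ HasPrimeDensity S δ ∧
      ∀ (l : ℕ) [Fact l.Prime], l ∈ S →
        ∃ τ : AlgebraicClosure ℚ_[l] ≃ₐ[ℚ_[l]] AlgebraicClosure ℚ_[l], ∀ j,
          ∀ α : AlgebraicClosure ℚ_[l], aeval α (f j) = 0 →
            τ α * α = algebraMap ℚ (AlgebraicClosure ℚ_[l]) (w j) := by
  classical
  obtain ⟨L, iF, hN, hG, c, hmain⟩ := good_prime f w hf hw
  obtain ⟨D, hD, hDT⟩ := torsor L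
  set C : ℕ := Nat.card {σ : Gal(L/ℚ) // σ⁻¹ * c * σ = c} with hC
  have hC0 : 0 < C := by
    have : Nonempty {σ : Gal(L/ℚ) // σ⁻¹ * c * σ = c} := ⟨1, by simp⟩
    exact Nat.card_pos
  set S : Set ℕ := {l | ∃ h : l.Prime, (haveI : Fact l.Prime := ⟨h⟩; TorAt L l) ∧ xp L c l ≠ 0}
    with hS
  refine ⟨S, (C : ℝ)⁻¹, by positivity, ⟨fun l hl => hl.1, ?_⟩, ?_⟩
  · have h1 : Tendsto (M fun l => (C : ℝ)⁻¹ * (xp L c l : ℝ)) atTop (𝓝 ((C : ℝ)⁻¹)) := by
      have h2 := (chebotarev L c).const_mul ((C : ℝ)⁻¹)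
      rw [mul_one] at h2
      refine h2.congr fun N => ?_
      rw [M_smul]
      rfl
    have h3 : Tendsto (M fun l => if l ∈ S then (1 : ℝ) else 0) atTop (𝓝 ((C : ℝ)⁻¹)) := by
      refine M_congr hD (fun l hl hlD => ?_) h1
      have : Fact l.Prime := ⟨hl⟩
      have hT := hDT l hlD
      by_cases hx : xp L c l = 0
      · rw [if_neg (fun h => h.2.2 hx), hx]
        simp
      · rw [if_pos ⟨hl, hT, hx⟩, xp_const c hT hx, ← hC]
        rw [inv_mul_cancel₀]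
        exact_mod_cast hC0.ne'
    refine h3.congr fun N => ?_
    unfold M
    congr 1
    rw [Finset.sum_ite, Finset.sum_const_zero, add_zero, Finset.sum_const, nsmul_eq_mul, mul_one]
    congr 1
    rw [← Set.ncard_coe_finset]
    congr 1
    ext l
    simp only [Finset.coe_filter, mem_pr, Set.mem_setOf_eq, Set.mem_inter_iff, Set.mem_Iic]
    exact ⟨fun h => ⟨h.2, h.1.1⟩, fun h => ⟨⟨h.2, h.1.1⟩, h.1⟩⟩
  · intro l hl hlS
    exact hmain l hlS.2.1 hlS.2.2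

end Pool.Agent.J6H2.CL
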