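import Pool.Agent.R908.AnisoDefs
import Pool.Agent.H914R2.DDefs

/-!
# Sets of primes with a density, and the conjecture D for products: definitions
-/

open Filter Topology

universe u v

namespace Pool.Agent.J6H2.CL

open Pool.Agent.H914 Pool.Agent.H914.VarClass Pool.Agent.H914.VarClass.Obj

/-- The set `S` consists of prime numbers, and has the natural density `δ` in the set of all prime
numbers. -/
structure HasPrimeDensity (S : Set ℕ) (δ : ℝ) : Prop where
  prime : ∀ l ∈ S, l.Prime
  tendsto : Tendsto (fun N : ℕ => ((S ∩ Set.Iic N).ncard : ℝ) / (Nat.primeCounting N : ℝ)) atTop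
    (𝓝 δ)

variable {k : Type u} [Field k] {𝒱 : VarClass k} {ops : CycleOps 𝒱}

/-- The coefficient field of the theory `W` is isomorphic to the field of `l`-adic numbers. -/
def IsAdic (W : WeilCohomology.{u, v} ops) (l : Nat.Primes) : Prop :=
  haveI : Fact (l : ℕ).Prime := ⟨l.2⟩
  Nonempty (W.K ≃+* ℚ_[l])

/-- All varieties `V` dominated by products of members of `𝒳` and `𝒴` satisfy the conjecture D, and
the conjecture B for all divisors with hard Lefschetz, provided that the conjecture D holds for all
products of members of `𝒴`. -/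
def PropagatesD (W : WeilCohomology.{u, v} ops) (𝒳 𝒴 : Set 𝒱.Obj) : Prop :=
  (∀ Y, IsProductOf 𝒴 Y → HomEqNum W Y) →
    ∀ Z, IsProductOf (𝒳 ∪ 𝒴) Z → ∀ V, Dominates W Z V → HomEqNum W V ∧
      ∀ E, V.IsCyc 1 E → HardLefschetz W V E → LefschetzB W V E

end Pool.Agent.J6H2.CL
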