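import Pool.Agent.R908.Desc
import Pool.Agent.H914R2.PFin

/-!
# Subspaces stable under an operator with simple spectrum are not isotropic
-/

set_option autoImplicit false

namespace Pool.Agent.J6H2.CL

open Polynomial TensorProduct Pool.Agent.H914 Pool.Agent.R908

variable {K : Type*} [Field K] [CharZero K] {V : Type*} [AddCommGroup V] [Module K V]
  [Module.Finite K V]

section

variable {Ω : Type*} [Field Ω] [Algebra K Ω]

omit [CharZero K] [Module.Finite K V] in
lemma sig_mem {U : Submodule K V} (τ : Ω ≃ₐ[K] Ω) {x : Ω ⊗[K] V} (hx : x ∈ U.baseChange Ω) :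
    sig τ x ∈ U.baseChange Ω := by
  refine base_induction_mod (P := fun x => sig τ x ∈ U.baseChange Ω) ?_ ?_ ?_ hx
  · rw [map_zero]; exact Submodule.zero_mem _
  · intro x y hx hy; rw [map_add]; exact Submodule.add_mem _ hx hy
  · intro l a ha
    rw [sig_tmul]
    exact Submodule.tmul_mem_baseChange_of_mem _ ha

omit [CharZero K] [Module.Finite K V] in
lemma bil_base_zero {B : LinearMap.BilinForm K V} {U : Submodule K V}
    (h : ∀ x ∈ U, ∀ y ∈ U, B x y = 0) {x y : Ω ⊗[K] V} (hx : x ∈ U.baseChange Ω)
    (hy : y ∈ U.baseChange Ω) : B.baseChange Ω x y = 0 := by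
  refine base_induction_mod (P := fun x => B.baseChange Ω x y = 0) ?_ ?_ ?_ hx
  · rw [map_zero, LinearMap.zero_apply]
  · intro x x' hx hx'; rw [map_add, LinearMap.add_apply, hx, hx', add_zero]
  · intro l a ha
    refine base_induction_mod (P := fun y => B.baseChange Ω (l ⊗ₜ a) y = 0) ?_ ?_ ?_ hy
    · rw [map_zero]
    · intro y y' hy hy'; rw [map_add, hy, hy', add_zero]
    · intro l' a' ha'
      rw [LinearMap.BilinForm.baseChange_tmul, h a ha a' ha', zero_smul]

omit [CharZero K] [Module.Finite K V] in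
lemma bil_base_sim {B : LinearMap.BilinForm K V} {G : Module.End K V} {c : K}
    (h : ∀ x y, B (G x) (G y) = c * B x y) (x y : Ω ⊗[K] V) :
    B.baseChange Ω (G.baseChange Ω x) (G.baseChange Ω y) =
      algebraMap K Ω c * B.baseChange Ω x y := by
  induction x using TensorProduct.induction_on with
  | zero => simp only [map_zero, LinearMap.zero_apply, mul_zero]
  | add x x' hx hx' => simp only [map_add, LinearMap.add_apply, hx, hx', mul_add]
  | tmul l a =>
    induction y using TensorProduct.induction_on with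
    | zero => simp only [map_zero, mul_zero]
    | add y y' hy hy' => simp only [map_add, hy, hy', mul_add]
    | tmul l' a' =>
      rw [LinearMap.baseChange_tmul, LinearMap.baseChange_tmul,
        LinearMap.BilinForm.baseChange_tmul, LinearMap.BilinForm.baseChange_tmul, h, mul_smul,
        Algebra.smul_def]

omit [CharZero K] [Module.Finite K V] in
lemma bil_base_nondeg {B : LinearMap.BilinForm K V} (h : ∀ x, (∀ y, B x y = 0) → x = 0)
    {x : Ω ⊗[K] V} (hx : ∀ y, B.baseChange Ω x y = 0) : x = 0 := by
  apply coef_sep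
  intro lam
  apply h
  intro y
  have h1 : lam (B.baseChange Ω x (1 ⊗ₜ y)) = B (coef lam x) y := by
    clear hx
    induction x using TensorProduct.induction_on with
    | zero => simp only [map_zero, LinearMap.zero_apply]
    | add x x' hx hx' => simp only [map_add, LinearMap.add_apply, hx, hx']
    | tmul l a =>
      rw [LinearMap.BilinForm.baseChange_tmul, coef_tmul, mul_one, map_smul, map_smul,
        LinearMap.smul_apply, smul_eq_mul, smul_eq_mul, mul_comm]
  rw [← h1, hx, map_zero]

end

/-- **Stable subspaces are not isotropic**, version for the whole space. -/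
theorem exists_pair_top {G : Module.End K V} (hsq : Squarefree G.charpoly)
    {B : LinearMap.BilinForm K V} {c : K} (hc : c ≠ 0) (hB : ∀ x y, B (G x) (G y) = c * B x y)
    (hnd : ∀ x, (∀ y, B x y = 0) → x = 0) (τ : AlgebraicClosure K ≃ₐ[K] AlgebraicClosure K)
    (hτ : ∀ α, aeval α G.charpoly = 0 → τ α * α = algebraMap K (AlgebraicClosure K) c)
    {U : Submodule K V} (hU : ∀ x ∈ U, G x ∈ U) (hU0 : U ≠ ⊥) :
    ∃ x ∈ U, ∃ y ∈ U, B x y ≠ 0 := by
  classical
  by_contra hcon
  push Not at hcon
  have hG : HasSimple G := ⟨_, hsq, LinearMap.charpoly_natDegree _,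
    fun Q hQ => charpoly_dvd_of_squarefree hsq hQ⟩
  obtain ⟨S, b, hb⟩ := exists_eigenbasis (AlgebraicClosure K) hG
  have hinj : Function.Injective (fun i : S => (i : AlgebraicClosure K)) := Subtype.coe_injective
  -- an eigenvector in the extension of `U`
  have hnt : Nontrivial (AlgebraicClosure K ⊗[K] U) := by
    apply Module.nontrivial_of_finrank_pos (R := AlgebraicClosure K)
    rw [Module.finrank_baseChange]
    have : Nontrivial U := Submodule.nontrivial_iff_ne_bot.2 hU0
    exact Module.finrank_pos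
  obtain ⟨α, hα⟩ := Module.End.exists_eigenvalue
    ((G.restrict hU).baseChange (AlgebraicClosure K) :
      Module.End (AlgebraicClosure K) (AlgebraicClosure K ⊗[K] U))
  obtain ⟨v, hv⟩ := hα.exists_hasEigenvector
  set u := incl (AlgebraicClosure K) U v with hu
  have hu0 : u ≠ 0 := fun h => hv.2 (incl_inj h)
  have huU : u ∈ U.baseChange (AlgebraicClosure K) := by
    rw [hu]
    clear_value u
    clear hu hu0 hv
    induction v using TensorProduct.induction_on with
    | zero => rw [map_zero]; exact Submodule.zero_mem _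
    | add y z hy hz => rw [map_add]; exact Submodule.add_mem _ hy hz
    | tmul l t =>
      rw [incl_tmul]
      exact Submodule.tmul_mem_baseChange_of_mem _ t.2
  have hGu : G.baseChange (AlgebraicClosure K) u = α • u := by
    rw [hu, incl_comm hU, Module.End.mem_eigenspace_iff.1 hv.1, map_smul]
  have hroot : aeval α G.charpoly = 0 := by
    have h1 : Module.End.HasEigenvalue (G.baseChange (AlgebraicClosure K)) α :=
      Module.End.hasEigenvalue_of_hasEigenvector ⟨Module.End.mem_eigenspace_iff.2 hGu, hu0⟩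
    have h2 := (Module.End.hasEigenvalue_iff_isRoot_charpoly _ _).1 h1
    rwa [LinearMap.charpoly_baseChange, IsRoot, eval_map_algebraMap] at h2
  have hτα := hτ α hroot
  have hcΩ : algebraMap K (AlgebraicClosure K) c ≠ 0 := by
    rwa [Ne, FaithfulSMul.algebraMap_eq_zero_iff]
  have hα0 : α ≠ 0 := by
    rintro rfl
    rw [mul_zero] at hτα
    exact hcΩ hτα.symm
  -- its conjugate
  set u' := sig τ u with hu'
  have hu'U : u' ∈ U.baseChange (AlgebraicClosure K) := sig_mem τ huU
  have hu'0 : u' ≠ 0 := by
    intro h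
    apply hu0
    rw [← sig_symm' τ u, ← hu', h, map_zero]
  have hGu' : G.baseChange (AlgebraicClosure K) u' = τ α • u' := by
    rw [hu', ← sig_baseChange', hGu, sig_smul]
  have h0 : B.baseChange (AlgebraicClosure K) u u' = 0 := bil_base_zero hcon huU hu'U
  apply hu0
  refine bil_base_nondeg hnd fun y => ?_
  have key : ∀ i, B.baseChange (AlgebraicClosure K) u (b i) = 0 := by
    intro i
    by_contra hne
    have h1 := bil_base_sim (Ω := AlgebraicClosure K) hB u (b i)
    rw [hGu, hb, map_smul, LinearMap.map_smul₂, smul_eq_mul, smul_eq_mul, ← mul_assoc] at h1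
    have h2 := mul_right_cancel₀ hne h1
    rw [← hτα] at h2
    have h3 : (i : AlgebraicClosure K) = τ α := mul_right_cancel₀ hα0 h2
    obtain ⟨r, hr⟩ := eig_unique hb hinj (i := i) (x := u') (by rw [hGu', h3])
    have hr0 : r ≠ 0 := by
      rintro rfl
      rw [zero_smul] at hr
      exact hu'0 hr
    rw [hr, map_smul, smul_eq_mul] at h0
    exact hne ((mul_eq_zero.1 h0).resolve_left hr0)
  rw [← b.sum_repr y, map_sum]
  apply Finset.sum_eq_zero
  intro i _
  rw [map_smul, key, smul_zero]

/-- **Stable subspaces are not isotropic.** -/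
theorem exists_pair {F : Module.End K V} {T : Submodule K V} (hst : ∀ a ∈ T, F a ∈ T)
    (hsq : Squarefree (F.restrict hst).charpoly) {B : V → V → K}
    (hBl : ∀ x y z, B (x + y) z = B x z + B y z) (hBr : ∀ x y z, B x (y + z) = B x y + B x z)
    (hBsl : ∀ (r : K) x y, B (r • x) y = r * B x y) (hBsr : ∀ (r : K) x y, B x (r • y) = r * B x y)
    {c : K} (hc : c ≠ 0) (hB : ∀ x ∈ T, ∀ y ∈ T, B (F x) (F y) = c * B x y)
    (hnd : ∀ x ∈ T, (∀ y ∈ T, B x y = 0) → x = 0)
    (τ : AlgebraicClosure K ≃ₐ[K] AlgebraicClosure K)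
    (hτ : ∀ α, aeval α (F.restrict hst).charpoly = 0 →
      τ α * α = algebraMap K (AlgebraicClosure K) c)
    {U : Submodule K V} (hUT : U ≤ T) (hU : ∀ x ∈ U, F x ∈ U) (hU0 : U ≠ ⊥) :
    ∃ x ∈ U, ∃ y ∈ U, B x y ≠ 0 := by
  let B' : LinearMap.BilinForm K T := LinearMap.mk₂ K (fun x y => B x y)
    (fun x y z => hBl x y z) (fun r x y => hBsl r x y) (fun x y z => hBr x y z)
    (fun r x y => hBsr r x y)
  obtain ⟨x, hx, y, hy, h⟩ := exists_pair_top (G := F.restrict hst) hsq (B := B') hc
    (fun x y => hB x x.2 y y.2) (fun x hx => Subtype.ext (hnd x x.2 fun y hy => hx ⟨y, hy⟩)) τ hτ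
    (U := U.comap T.subtype) (fun x hx => hU _ hx) (by
      intro h
      apply hU0
      rw [eq_bot_iff]
      intro x hx
      have h1 : (⟨x, hUT hx⟩ : T) ∈ U.comap T.subtype := hx
      rw [h, Submodule.mem_bot] at h1
      rw [Submodule.mem_bot]
      exact congrArg Subtype.val h1)
  exact ⟨x, hx, y, hy, h⟩

end Pool.Agent.J6H2.CL
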