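import Pool.Agent.W401.Cheb.Grp

/-!
# A Frobenius element in the local Galois group
-/

set_option autoImplicit false

namespace Pool.Agent.J6H2.CL

open NumberField Pool.Agent.W401.Cheb Polynomial

section Local

variable {L : Type} [Field L] [NumberField L] [IsGalois ℚ L] {l : ℕ} [hl : Fact l.Prime]
  {M : Type} [Field M] [Algebra ℚ_[l] M] [FiniteDimensional ℚ_[l] M] [IsGalois ℚ_[l] M]
  [Algebra ℤ_[l] M] [IsScalarTower ℤ_[l] ℚ_[l] M]

set_option linter.unusedSectionVars false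

/-- The integers of `L` in the integers of `M`. -/
noncomputable def toO (ι : L →+* M) : 𝓞 L →+* integralClosure ℤ_[l] M where
  toFun x := ⟨ι x, by
    have h1 : IsIntegral ℤ (ι (x : L)) := (RingOfIntegers.isIntegral_coe x).map ι.toIntAlgHom
    exact h1.tower_top⟩
  map_one' := Subtype.ext (by simp)
  map_mul' x y := Subtype.ext (by simp)
  map_zero' := Subtype.ext (by simp)
  map_add' x y := Subtype.ext (by simp)

lemma toO_coe (ι : L →+* M) (x : 𝓞 L) : ((toO (l := l) ι x : integralClosure ℤ_[l] M) : M) = ι x :=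
  rfl

theorem exists_local (ι : L →+* M) (h : TorAt L l) {φ : 𝓞 L →+* AlgebraicClosure (ZMod l)}
    {c : Gal(L/ℚ)} (hφ : HasFrob l φ c) :
    ∃ (τ : M ≃ₐ[ℚ_[l]] M) (σ : Gal(L/ℚ)), ∀ x : L, τ (ι x) = ι ((σ * c * σ⁻¹) x) := by
  classical
  set O := integralClosure ℤ_[l] M with hO
  have hfr : IsFractionRing O M :=
    integralClosure.isFractionRing_of_finite_extension ℚ_[l] M
  have hinv : Algebra.IsInvariant ℤ_[l] O (O ≃ₐ[ℤ_[l]] O) :=
    Algebra.isInvariant_of_isGalois' ℤ_[l] ℚ_[l] M O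
  have hG : Finite (O ≃ₐ[ℤ_[l]] O) :=
    Finite.of_equiv _ (galRestrict ℤ_[l] ℚ_[l] M O).toEquiv
  obtain ⟨Q, hQ⟩ := Ideal.exists_maximal O
  have hfin : Module.Finite ℤ_[l] O := IsIntegralClosure.finite ℤ_[l] ℚ_[l] M O
  have hP : (Q.under ℤ_[l]).IsMaximal := Ideal.isMaximal_comap_of_isIntegral_of_isMaximal Q
  have hPe : Q.under ℤ_[l] = IsLocalRing.maximalIdeal ℤ_[l] := IsLocalRing.eq_maximalIdeal hP
  have hcard : Nat.card (ℤ_[l] ⧸ Q.under ℤ_[l]) = l := by
    rw [hPe]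
    have e : (ℤ_[l] ⧸ IsLocalRing.maximalIdeal ℤ_[l]) ≃+* ZMod l := PadicInt.residueField
    rw [Nat.card_congr e.toEquiv, Nat.card_zmod]
  have hfP : Finite (ℤ_[l] ⧸ Q.under ℤ_[l]) := by
    apply Nat.finite_of_card_ne_zero
    rw [hcard]
    exact hl.out.ne_zero
  have hfQ : Finite (O ⧸ Q) := by
    have : Module.Finite (ℤ_[l] ⧸ Q.under ℤ_[l]) (O ⧸ Q) := inferInstance
    exact Module.finite_of_finite (ℤ_[l] ⧸ Q.under ℤ_[l])
  obtain ⟨τ₀, hτ⟩ := IsArithFrobAt.exists_of_isInvariant ℤ_[l] (O ≃ₐ[ℤ_[l]] O) Q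
  set τ : M ≃ₐ[ℚ_[l]] M := (galRestrict ℤ_[l] ℚ_[l] M O).symm τ₀ with hτdef
  have hττ : ∀ x : O, τ (x : M) = ((τ₀ x : O) : M) := fun x =>
    galRestrict_symm_algebraMap_apply ℤ_[l] ℚ_[l] τ₀ x
  let : Field (O ⧸ Q) := Ideal.Quotient.field Q
  have hl0 : ((l : ℕ) : O ⧸ Q) = 0 := by
    have h1 : (l : ℤ_[l]) ∈ Q.under ℤ_[l] := by
      rw [hPe, PadicInt.maximalIdeal_eq_span_p]
      exact Ideal.mem_span_singleton_self _
    have h2 : ((l : ℕ) : O) ∈ Q := by
      have := Ideal.mem_comap.1 h1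
      rwa [map_natCast] at this
    have h3 := Ideal.Quotient.eq_zero_iff_mem.2 h2
    rwa [map_natCast] at h3
  have : CharP (O ⧸ Q) l := (CharP.charP_iff_prime_eq_zero hl.out).2 hl0
  let : Algebra (ZMod l) (O ⧸ Q) := ZMod.algebra _ l
  have : Module.Finite (ZMod l) (O ⧸ Q) := Module.Finite.of_finite
  let j : (O ⧸ Q) →ₐ[ZMod l] AlgebraicClosure (ZMod l) := IsAlgClosed.lift
  set ψ : 𝓞 L →+* AlgebraicClosure (ZMod l) :=
    (j.toRingHom.comp (Ideal.Quotient.mk Q)).comp (toO ι) with hψ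
  have hcz : CharZero M := charZero_of_injective_algebraMap (algebraMap ℚ_[l] M).injective
  let : Algebra L M := ι.toAlgebra
  have : IsScalarTower ℚ L M := IsScalarTower.of_algebraMap_eq' (Subsingleton.elim _ _)
  set τ' : M ≃ₐ[ℚ] M := τ.restrictScalars ℚ with hτ'
  set g : Gal(L/ℚ) := τ'.restrictNormal L with hg
  have hgι : ∀ x : L, ι (g x) = τ (ι x) := fun x => AlgEquiv.restrictNormal_commutes τ' L x
  have hψg : HasFrob l ψ g := by
    intro x
    have h1 := hτ (toO ι x)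
    rw [hcard] at h1
    have h2 : toO (l := l) ι (g • x) = τ₀ (toO (l := l) ι x) := by
      apply Subtype.ext
      rw [← hττ, toO_coe, toO_coe, ← hgι]
      rfl
    have h3 : Ideal.Quotient.mk Q (toO ι (g • x)) = Ideal.Quotient.mk Q (toO ι x) ^ l := by
      rw [← map_pow, h2]
      exact Ideal.Quotient.eq.2 h1
    change j (Ideal.Quotient.mk Q (toO ι (g • x))) = j (Ideal.Quotient.mk Q (toO ι x)) ^ l
    rw [h3, map_pow]
  obtain ⟨σ, hσ, -⟩ := h.2.1 ψ φ
  have h2 : σ * c = g * σ := by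
    refine tw_inj h (φ := ψ) fun x => ?_
    rw [mul_smul, mul_smul, ← hσ, hφ, hσ]
    exact (hψg (σ • x)).symm
  refine ⟨τ, σ, fun x => ?_⟩
  rw [h2, mul_inv_cancel_right, hgι]

end Local

section Global

variable {L : Type} [Field L] [NumberField L] [IsGalois ℚ L]

lemma exists_conj (i : L →+* ℂ) : ∃ c : Gal(L/ℚ), ∀ x, i (c x) = starRingEnd ℂ (i x) := by
  let : Algebra L ℂ := i.toAlgebra
  have : IsScalarTower ℚ L ℂ := IsScalarTower.of_algebraMap_eq' (Subsingleton.elim _ _)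
  exact ⟨(Complex.conjAe.restrictScalars ℚ).restrictNormal L,
    fun x => AlgEquiv.restrictNormal_commutes (Complex.conjAe.restrictScalars ℚ) L x⟩

omit [IsGalois ℚ L] in
/-- Complex conjugation on the roots of a polynomial all of whose complex roots have the same
absolute value. -/
lemma conj_root {f : ℚ[X]} {w : ℚ} (hw : ∀ z : ℂ, aeval z f = 0 → ‖z‖ ^ 2 = w) {i : L →+* ℂ}
    {c : Gal(L/ℚ)} (hc : ∀ x, i (c x) = starRingEnd ℂ (i x)) {a : L} (ha : aeval a f = 0)
    (σ : Gal(L/ℚ)) : (σ * c * σ⁻¹) a * a = algebraMap ℚ L w := by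
  have key : ∀ b : L, aeval b f = 0 → c b * b = algebraMap ℚ L w := by
    intro b hb
    apply i.injective
    have h1 : aeval (i b) f = 0 := by
      have := congrArg i hb
      rw [map_zero] at this
      rw [← this]
      exact (Polynomial.aeval_algHom_apply (i.toRatAlgHom) b f)
    have h2 := hw _ h1
    rw [map_mul, hc, ← Complex.normSq_eq_conj_mul_self, Complex.normSq_eq_norm_sq, h2]
    have h3 : i (algebraMap ℚ L w) = algebraMap ℚ ℂ w := by
      rw [← RingHom.comp_apply]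
      congr 1
      exact Subsingleton.elim _ _
    rw [h3]
    simp
  have h1 : aeval (σ⁻¹ a) f = 0 := by
    rw [Polynomial.aeval_algHom_apply (σ⁻¹ : Gal(L/ℚ)) a f, ha, map_zero]
  have h2 := congrArg σ (key _ h1)
  rw [map_mul, AlgEquiv.commutes] at h2
  rw [← h2, AlgEquiv.mul_apply, AlgEquiv.mul_apply]
  congr 1
  rw [← AlgEquiv.mul_apply, mul_inv_cancel, AlgEquiv.one_apply]

end Global

lemma exists_splitting {K : Type} [Field K] (F : K[X]) : ∃ (L : Type) (_ : Field L)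
    (_ : Algebra K L), IsSplittingField K L F :=
  ⟨F.SplittingField, inferInstance, inferInstance, inferInstance⟩

lemma exists_splitting_rat (F : ℚ[X]) : ∃ (L : Type) (_ : Field L) (_ : NumberField L),
    IsSplittingField ℚ L F := by
  obtain ⟨L, iF, iA, hS⟩ := exists_splitting F
  have hfin : FiniteDimensional ℚ L := IsSplittingField.finiteDimensional L F
  have hcz : CharZero L := charZero_of_injective_algebraMap (algebraMap ℚ L).injective
  have h : iA = DivisionRing.toRatAlgebra := Subsingleton.elim _ _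
  subst h
  exact ⟨L, iF, {}, hS⟩

/-- **Good primes.** -/
theorem good_prime {J : Type*} [Finite J] (f : J → ℚ[X]) (w : J → ℚ) (hf : ∀ j, f j ≠ 0)
    (hw : ∀ j, ∀ z : ℂ, aeval z (f j) = 0 → ‖z‖ ^ 2 = w j) :
    ∃ (L : Type) (_ : Field L) (_ : NumberField L) (_ : IsGalois ℚ L) (c : Gal(L/ℚ)),
      ∀ (l : ℕ) [Fact l.Prime], TorAt L l → xp L c l ≠ 0 →
        ∃ τ : AlgebraicClosure ℚ_[l] ≃ₐ[ℚ_[l]] AlgebraicClosure ℚ_[l], ∀ j,
          ∀ α : AlgebraicClosure ℚ_[l], aeval α (f j) = 0 →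
            τ α * α = algebraMap ℚ (AlgebraicClosure ℚ_[l]) (w j) := by
  classical
  cases nonempty_fintype J
  set F : ℚ[X] := ∏ j, f j with hF
  have hF0 : F ≠ 0 := Finset.prod_ne_zero_iff.2 fun j _ => hf j
  obtain ⟨L, iF, hN, hS⟩ := exists_splitting_rat F
  have hnorm : Normal ℚ L := Normal.of_isSplittingField F
  have hG : IsGalois ℚ L := {}
  obtain ⟨i⟩ : Nonempty (L →+* ℂ) := ⟨(IsAlgClosed.lift (R := ℚ)).toRingHom⟩
  obtain ⟨c, hc⟩ := exists_conj i
  refine ⟨L, inferInstance, hN, hG, c, fun l hl hT hx => ?_⟩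
  -- the local field
  set Fl : ℚ_[l][X] := F.map (algebraMap ℚ ℚ_[l]) with hFl
  obtain ⟨M, iM, iAM, hSM⟩ := exists_splitting Fl
  let : Algebra ℤ_[l] M := ((algebraMap ℚ_[l] M).comp (algebraMap ℤ_[l] ℚ_[l])).toAlgebra
  have : IsScalarTower ℤ_[l] ℚ_[l] M := IsScalarTower.of_algebraMap_eq' rfl
  have hcz : CharZero M := charZero_of_injective_algebraMap (algebraMap ℚ_[l] M).injective
  have hfM : FiniteDimensional ℚ_[l] M := IsSplittingField.finiteDimensional M Fl
  have hnM : Normal ℚ_[l] M := Normal.of_isSplittingField Fl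
  have hGM : IsGalois ℚ_[l] M := {}
  have hsp : (F.map (algebraMap ℚ M)).Splits := by
    have h1 : (Fl.map (algebraMap ℚ_[l] M)).Splits := IsSplittingField.splits M Fl
    rw [hFl, Polynomial.map_map] at h1
    rwa [Subsingleton.elim (algebraMap ℚ M) ((algebraMap ℚ_[l] M).comp (algebraMap ℚ ℚ_[l]))]
  set ι : L →+* M := (IsSplittingField.lift L F hsp).toRingHom with hι
  obtain ⟨φ, hφ⟩ : ∃ φ : 𝓞 L →+* AlgebraicClosure (ZMod l), HasFrob l φ c := by
    by_contra hno
    push Not at hno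
    apply hx
    unfold xp
    rw [dif_pos hl.out]
    have : IsEmpty {φ : 𝓞 L →+* AlgebraicClosure (ZMod l) // HasFrob l φ c} :=
      ⟨fun x => hno x.1 x.2⟩
    exact Nat.card_of_isEmpty
  obtain ⟨τ, σ, hτ⟩ := exists_local ι hT hφ
  let e : M →ₐ[ℚ_[l]] AlgebraicClosure ℚ_[l] := IsAlgClosed.lift
  let : Algebra M (AlgebraicClosure ℚ_[l]) := e.toRingHom.toAlgebra
  have : IsScalarTower ℚ_[l] M (AlgebraicClosure ℚ_[l]) := IsScalarTower.of_algebraMap_eq'
    e.comp_algebraMap.symm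
  refine ⟨τ.liftNormal (AlgebraicClosure ℚ_[l]), fun j α hα => ?_⟩
  -- the root comes from the number field
  have hsj : ((f j).map (algebraMap ℚ L)).Splits := by
    have h1 : (F.map (algebraMap ℚ L)).Splits := IsSplittingField.splits L F
    refine h1.of_dvd ?_ ?_
    · exact Polynomial.map_ne_zero hF0
    · exact Polynomial.map_dvd _ (Finset.dvd_prod_of_mem f (Finset.mem_univ j))
  obtain ⟨a, ha, hae⟩ : ∃ a : L, aeval a (f j) = 0 ∧ e (ι a) = α := by
    have h1 := hsj.roots_map (e.toRingHom.comp ι)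
    have h2 : α ∈ (((f j).map (algebraMap ℚ L)).map (e.toRingHom.comp ι)).roots := by
      rw [Polynomial.map_map, Polynomial.mem_roots (Polynomial.map_ne_zero (hf j)),
        Polynomial.IsRoot.def, Polynomial.eval_map, Subsingleton.elim
          ((e.toRingHom.comp ι).comp (algebraMap ℚ L))
          (algebraMap ℚ (AlgebraicClosure ℚ_[l]))]
      exact hα
    rw [h1, Multiset.mem_map] at h2
    obtain ⟨a, ha, hae⟩ := h2
    refine ⟨a, ?_, hae⟩
    have h3 := Polynomial.isRoot_of_mem_roots ha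
    rwa [Polynomial.IsRoot.def, Polynomial.eval_map] at h3
  subst hae
  have h1 : (τ.liftNormal (AlgebraicClosure ℚ_[l])) (e (ι a)) = e (τ (ι a)) :=
    AlgEquiv.liftNormal_commutes τ (AlgebraicClosure ℚ_[l]) (ι a)
  rw [h1, hτ, ← map_mul, ← map_mul, conj_root (hw j) hc ha σ]
  exact congrArg (fun g : ℚ →+* AlgebraicClosure ℚ_[l] => g (w j))
    (Subsingleton.elim ((e.toRingHom.comp ι).comp (algebraMap ℚ L)) _)

end Pool.Agent.J6H2.CL
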